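import Pool.Agent.H37.CND.Stmts

/-!
# Denominators of conductors, row NGE
-/

set_option autoImplicit false

namespace Pool.CND

open Finset

theorem nge_thm (hLOW : S_LOW) (hUPA : S_UPA) (hEGA : S_EGA) (hEGC : S_EGC) (hNGL : S_NGL) :
    S_NGE := by
  intro p k _ _ _ _ h hh
  have hp : p.Prime := Fact.out
  obtain ⟨hfin, _⟩ := hEGC p k h hh
  obtain ⟨A, hEA, hA1, hA2⟩ := hEGA p k h hh
  have hp1 : ¬ p ∣ 1 := by
    intro h1
    exact hp.one_lt.ne' (Nat.dvd_one.1 h1)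
  have hup : ∀ c ∈ Cond k (EG k p h), ∃ z : ℤ, ((p ^ h : ℕ) : ℚ) * c = z := by
    intro c hc
    by_cases h2 : p = 2
    · have h22 : (2 : ℕ) ^ (h + 1) = p ^ (h + 1) := by rw [h2]
      have hcard : Nat.card (EG k p h) = p ^ (h + 1) * Nat.card A * 1 := by
        rw [hA2 h2, mul_one, h22]
      obtain ⟨_, h3⟩ := hUPA p k (EG k p h) A (h + 1) 1 hp inferInstance hEA hp1 hcard c hc
      obtain ⟨z, hz⟩ := h3 h2 (by omega)
      refine ⟨z, ?_⟩
      rw [Nat.add_sub_cancel, mul_one] at hz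
      rw [← hz, h2]
    · have hcard : Nat.card (EG k p h) = p ^ h * Nat.card A * 1 := by
        rw [hA1 h2, mul_one]
      obtain ⟨⟨z, hz⟩, _⟩ := hUPA p k (EG k p h) A h 1 hp inferInstance hEA hp1 hcard c hc
      refine ⟨z, ?_⟩
      rw [mul_one] at hz
      exact hz
  refine hNGL k (EG k p h) (p ^ h) (Nat.one_le_iff_ne_zero.2 (pow_ne_zero h hp.ne_zero)) hup ?_
  intro N hN hdvd
  have hq0 : ((p : ℚ) ^ h) ≠ 0 := pow_ne_zero h (by exact_mod_cast hp.ne_zero)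
  have hq1 : ((p : ℚ) ^ h + 1) ≠ 0 := by positivity
  have hinj : Function.Injective
      (fun j : ℕ => (((1 + p * j : ℕ) : ℚ) * (p ^ h + 1)) / p ^ h) := by
    intro i j hij
    have h1 : ((1 + p * i : ℕ) : ℚ) * (p ^ h + 1) = ((1 + p * j : ℕ) : ℚ) * (p ^ h + 1) :=
      (div_left_inj' hq0).1 hij
    have h2 : ((1 + p * i : ℕ) : ℚ) = ((1 + p * j : ℕ) : ℚ) := mul_right_cancel₀ hq1 h1
    have h3 : 1 + p * i = 1 + p * j := by exact_mod_cast h2
    have h4 : p * i = p * j := by omega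
    exact Nat.eq_of_mul_eq_mul_left hp.pos h4
  refine Set.Infinite.mono ?_ (Set.infinite_range_of_injective hinj)
  rintro _ ⟨j, rfl⟩
  have hpm : ¬ p ∣ 1 + p * j := by
    intro h1
    exact hp1 ((Nat.dvd_add_left (dvd_mul_right p j)).1 h1)
  refine ⟨hLOW p k h (1 + p * j) hh (by omega) hpm, ?_⟩
  rintro ⟨z, hz⟩
  apply hdvd
  have h1 : (N : ℚ) * ((1 + p * j : ℕ) : ℚ) * (p ^ h + 1) = z * p ^ h := by
    have h2 : (N : ℚ) * ((((1 + p * j : ℕ) : ℚ) * (p ^ h + 1)) / p ^ h) * p ^ h = z * p ^ h := by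
      rw [hz]
    rw [← h2, mul_assoc (N : ℚ) _ ((p : ℚ) ^ h), div_mul_cancel₀ _ hq0]
    ring
  have h3 : ((N * ((1 + p * j) * (p ^ h + 1)) : ℕ) : ℤ) = z * ((p ^ h : ℕ) : ℤ) := by
    have h4 : (((N * ((1 + p * j) * (p ^ h + 1)) : ℕ) : ℤ) : ℚ) = ((z * ((p ^ h : ℕ) : ℤ) : ℤ) : ℚ) := by
      push_cast
      push_cast at h1
      linarith
    exact_mod_cast h4
  have h5 : ((p ^ h : ℕ) : ℤ) ∣ ((N * ((1 + p * j) * (p ^ h + 1)) : ℕ) : ℤ) := by
    rw [h3]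
    exact dvd_mul_left _ _
  have h6 : p ^ h ∣ N * ((1 + p * j) * (p ^ h + 1)) := by exact_mod_cast h5
  have hc1 : Nat.Coprime (p ^ h) (1 + p * j) :=
    Nat.Coprime.pow_left h ((Nat.Prime.coprime_iff_not_dvd hp).2 hpm)
  have hc2 : Nat.Coprime (p ^ h) (p ^ h + 1) := by
    have : Nat.Coprime (p ^ h) (1 + p ^ h) := by simp
    rwa [add_comm] at this
  exact Nat.Coprime.dvd_of_dvd_mul_right (Nat.Coprime.mul_right hc1 hc2) h6

end Pool.CND
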