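import Pool.Agent.H37.CND.Stmts

/-!
# Denominators of conductors, row TMO
-/

set_option autoImplicit false

namespace Pool.CND

open Finset

theorem tmo_thm (hE : S_EXP) : S_TMO := by
  intro p k L G _ _ _ _ P ρ hp hchar g hg hgp
  haveI := hchar
  haveI : Fact p.Prime := ⟨hp⟩
  have hF : Fixes P (ρ g) := hg.1
  refine ⟨hF, ?_⟩
  intro u hu hord
  have hx : ρ g u ≠ 0 := by simpa using hu
  have hox : P.ord (ρ g u) = 1 := by rw [hF u hu, hord]
  obtain ⟨c, hc, hGe⟩ := hE k L P u (ρ g u) hu hord hx
  rw [hox] at hGe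
  have hGe1 : P.Ge (ρ g u - algebraMap k L c * u) 2 := by
    have h1 : (u : L) ^ (1 : ℤ) = u := zpow_one u
    rw [h1] at hGe
    exact hGe
  have hpow : ∀ n : ℕ, P.Ge ((ρ g ^ n) u - algebraMap k L (c ^ n) * u) 2 := by
    intro n
    induction n with
    | zero =>
      left
      simp
    | succ n ih =>
      have h2 := hF.ge ih
      have h3 : P.Ge (algebraMap k L (c ^ n) * (ρ g u - algebraMap k L c * u)) (0 + 2) :=
        P.ge_mul (P.ge_const _) hGe1
      rw [zero_add] at h3
      have h4 := P.ge_add h2 h3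
      have e : ρ g ((ρ g ^ n) u - algebraMap k L (c ^ n) * u) +
          algebraMap k L (c ^ n) * (ρ g u - algebraMap k L c * u) =
          (ρ g ^ (n + 1)) u - algebraMap k L (c ^ (n + 1)) * u := by
        rw [map_sub, map_mul, AlgEquiv.commutes, pow_succ' (ρ g) n, AlgEquiv.mul_apply,
          pow_succ c n, map_mul]
        ring
      rw [e] at h4
      exact h4
  have hp1 : P.Ge ((ρ g ^ p) u - u) 2 := by
    have h5 := hgp.2 u hu hord
    rw [map_pow] at h5
    rcases h5 with h5 | h5
    · left
      rw [h5, sub_self]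
    · right
      have : ((1 : ℕ) : ℤ) + 1 = 2 := by norm_num
      rw [this] at h5
      exact h5
  have h6 : P.Ge ((algebraMap k L (c ^ p - 1)) * u) 2 := by
    have h7 := P.ge_sub hp1 (hpow p)
    have e : (ρ g ^ p) u - u - ((ρ g ^ p) u - algebraMap k L (c ^ p) * u) =
        algebraMap k L (c ^ p - 1) * u := by
      rw [map_sub, map_one]
      ring
    rw [e] at h7
    exact h7
  have h8 : c ^ p - 1 = 0 := by
    by_contra h9
    have h10 : algebraMap k L (c ^ p - 1) ≠ 0 := by
      intro h
      exact h9 ((map_eq_zero (algebraMap k L)).1 h)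
    have h11 : algebraMap k L (c ^ p - 1) * u ≠ 0 := mul_ne_zero h10 hu
    have h12 : (2 : ℤ) ≤ P.ord (algebraMap k L (c ^ p - 1) * u) := h6.resolve_left h11
    rw [P.ord_mul _ _ h10 hu, P.ord_const _ h9, hord] at h12
    omega
  have h13 : c = 1 := by
    have h14 : (c - 1) ^ p = 0 := by
      rw [sub_pow_char, one_pow]
      exact h8
    have h15 : c - 1 = 0 := by
      exact pow_eq_zero_iff hp.ne_zero |>.1 h14
    exact sub_eq_zero.1 h15
  rw [h13, map_one, one_mul] at hGe1
  rcases hGe1 with h | h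
  · left
    exact sub_eq_zero.1 h
  · right
    have : ((1 : ℕ) : ℤ) + 1 = 2 := by norm_num
    rw [this]
    exact h

end Pool.CND
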